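import Pool.Agent.Helper855.Lt.Final

open Pool.Agent.Helper622

/-- For all odd distinct `s, u ≥ 3` there is a regular `4`-polytope `P` all of whose facets are
isomorphic to `{4,4}_(s,0)` and all of whose vertex-figures are isomorphic to `{4,4}_(u,0)`;
unless `(s, u)` is `(3, 5)` or `(5, 3)`, it can be chosen infinite. -/
theorem Pool.Agent.Results.MP_fc3421_co.Conjecture.result (s u : ℕ) (hs : Odd s)
    (hu : Odd u) (h3s : 3 ≤ s) (h3u : 3 ≤ u) (hne : s ≠ u) :
    ∃ (P : Type) (_ : PartialOrder P) (X : AbstractPolytope 4 P), X.IsRegular ∧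
      (∀ F : P, X.rank F = 3 → Nonempty (Torus s ≃o Set.Iic F)) ∧
      (∀ v : P, X.rank v = 0 → Nonempty (Torus u ≃o Set.Ici v)) ∧
      (¬ (s = 3 ∧ u = 5) → ¬ (s = 5 ∧ u = 3) → Infinite P) := by
  obtain ⟨P, i, X, h1, h2, h3, h4⟩ :=
    Pool.Agent.Helper855.Lt.polytope_of_good (Pool.Agent.Helper855.Lt.good hs hu h3s h3u)
  exact ⟨P, i, X, h1, h2, h3, fun a b =>
    h4 (Pool.Agent.Helper855.Lt.infinite_all hs hu h3s h3u hne a b)⟩
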