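import Pool.Agent.Helper622.FiniteCF

open Pool.Agent.Helper622

/-- For all odd `s, u ≥ 3` there is a (finite) regular `4`-polytope all of whose facets are
isomorphic to `{4,4}_(s,0)` and all of whose vertex-figures are isomorphic to `{4,4}_(u,0)`. -/
theorem Pool.Agent.Results.MP_fc3421_co.ExistsAll.result (s u : ℕ) (hs : Odd s) (hu : Odd u)
    (h3s : 3 ≤ s) (h3u : 3 ≤ u) :
    ∃ (P : Type) (_ : PartialOrder P) (X : AbstractPolytope 4 P), Finite P ∧ X.IsRegular ∧
      (∀ F : P, X.rank F = 3 → Nonempty (Torus s ≃o Set.Iic F)) ∧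
      (∀ v : P, X.rank v = 0 → Nonempty (Torus u ≃o Set.Ici v)) := by
  obtain ⟨K, _, _, l, e, two, hl, he⟩ := exists_field hs hu
  obtain ⟨Q, hQl, hQe⟩ := exists_par' (K := K) (by omega) (by omega) two hl he
  have hA := CharTwo.genA Q hs (by omega) hQl
  have hB := CharTwo.genB Q hu (by omega) hQe
  obtain ⟨h, hF, hV⟩ := exists_polytope hA hB (CharTwo.c03 Q) (CharTwo.interAB Q hA)
  have : Finite (V5 K) := V5.finite
  exact ⟨CF (sub ![CharTwo.r0 Q, CharTwo.r1 Q, CharTwo.r2 Q, CharTwo.r3]), inferInstance,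
    CF.polytope, CF.finite _, CF.isRegular, hF, hV⟩
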