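import Pool.Agent.Helper622.InfiniteCF

open Pool.Agent.Helper622

/-- For all odd `s, u ≥ 3` there is a regular `4`-polytope `P` all of whose facets are
isomorphic to `{4,4}_(s,0)` and all of whose vertex-figures are isomorphic to `{4,4}_(u,0)`;
if `s, u ≥ 5`, then `P` can be chosen infinite. -/
theorem Pool.Agent.Results.MP_fc3421_co.InfiniteFromFive.result (s u : ℕ) (hs : Odd s)
    (hu : Odd u) (h3s : 3 ≤ s) (h3u : 3 ≤ u) :
    ∃ (P : Type) (_ : PartialOrder P) (X : AbstractPolytope 4 P), X.IsRegular ∧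
      (∀ F : P, X.rank F = 3 → Nonempty (Torus s ≃o Set.Iic F)) ∧
      (∀ v : P, X.rank v = 0 → Nonempty (Torus u ≃o Set.Ici v)) ∧
      (5 ≤ s → 5 ≤ u → Infinite P) := by
  by_cases h : 5 ≤ s ∧ 5 ≤ u
  · obtain ⟨P, i, X, h1, h2, h3, h4⟩ := exists_infinite hs hu h.1 h.2
    exact ⟨P, i, X, h2, h3, h4, fun _ _ => h1⟩
  · obtain ⟨K, _, _, l, e, two, hl, he⟩ := exists_field hs hu
    obtain ⟨Q, hQl, hQe⟩ := exists_par' (K := K) (by omega) (by omega) two hl he
    have hA := CharTwo.genA Q hs (by omega) hQl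
    have hB := CharTwo.genB Q hu (by omega) hQe
    obtain ⟨h', hF, hV⟩ := exists_polytope hA hB (CharTwo.c03 Q) (CharTwo.interAB Q hA)
    exact ⟨CF (sub ![CharTwo.r0 Q, CharTwo.r1 Q, CharTwo.r2 Q, CharTwo.r3]), inferInstance,
      CF.polytope, CF.isRegular, hF, hV, fun h5 h5' => absurd ⟨h5, h5'⟩ h⟩
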