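import Pool.Agent.Helper855.Lp.Answer

open Pool.Agent.Helper855.Lp

/-- For all odd distinct `s, u ≥ 3` there is a regular `4`-polytope `P` with facets `{4,4}_(s,0)`
and vertex-figures `{4,4}_(u,0)` whose automorphism group is the group `Γ(s,u)`, the quotient of
the Coxeter group `[4,4,4]` by `(ρ0 ρ1 ρ2 ρ1)^s = (ρ1 ρ2 ρ3 ρ2)^u = 1`, with `ρ0, …, ρ3` as the
distinguished generators (`ρ i` fixes the faces of rank `≠ i` of a base flag). So `P` is the
universal polytope. It is finite if and only if `(s, u)` is `(3, 5)` or `(5, 3)`, and then its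
group has order `3916800`. -/
theorem Pool.Agent.Results.MP_fc3421_co.Universal.result (s u : ℕ) (hs : Odd s)
    (hu : Odd u) (h3s : 3 ≤ s) (h3u : 3 ≤ u) (hne : s ≠ u) :
    ∃ (P : Type) (_ : PartialOrder P) (X : AbstractPolytope 4 P), X.IsRegular ∧
      (∀ F : P, X.rank F = 3 → Nonempty (Torus s ≃o Set.Iic F)) ∧
      (∀ v : P, X.rank v = 0 → Nonempty (Torus u ≃o Set.Ici v)) ∧
      (∃ (Φ : Flag P) (e : Gam s u ≃* (P ≃o P)), ∀ (i : Fin 4), ∀ F ∈ Φ, X.rank F ≠ (i : ℤ) →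
        e (PresentedGroup.of i) F = F) ∧
      (Finite P ↔ (s = 3 ∧ u = 5) ∨ (s = 5 ∧ u = 3)) ∧
      ((s = 3 ∧ u = 5) ∨ (s = 5 ∧ u = 3) → Nat.card (P ≃o P) = 3916800) :=
  answer s u hs hu h3s h3u hne
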